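import Pool.Agent.L7h99.AE.Defs

/-!
# The energy of a localised subsolution

`s_CAC`: discrete Caccioppoli inequality on the lattice.
-/

set_option autoImplicit false

namespace Pool.Agent.L7h73.AE

open Pool.Agent.H12R2.And (V ee Q)
open Pool.Agent.L7h99.AE

variable {d : ℕ}

lemma fin_shift {c : V d → ℝ} (hc : (Function.support c).Finite) (w : V d) :
    (Function.support (fun x => c (x + w))).Finite := by
  have : Function.support (fun x => c (x + w)) = (fun x => x + w) ⁻¹' Function.support c := rfl
  rw [this]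
  exact hc.preimage (add_left_injective w).injOn

lemma sm {c : V d → ℝ} (hc : (Function.support c).Finite) {F : V d → ℝ}
    (h : ∀ x, c x = 0 → F x = 0) : Summable F := by
  refine summable_of_hasFiniteSupport (hc.subset ?_)
  intro x hx
  rw [Function.mem_support] at hx ⊢
  exact fun h0 => hx (h x h0)

lemma sm2 {c : V d → ℝ} (hc : (Function.support c).Finite) (w : V d) {F : V d → ℝ}
    (h : ∀ x, c x = 0 → c (x + w) = 0 → F x = 0) : Summable F := by
  refine summable_of_hasFiniteSupport ((hc.union (fin_shift hc w)).subset ?_)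
  intro x hx
  rw [Function.mem_support] at hx
  by_contra h0
  rw [Set.mem_union, not_or, Function.mem_support, Function.mem_support, not_not, not_not] at h0
  exact hx (h x h0.1 h0.2)

lemma shift_tsum (F : V d → ℝ) (w : V d) : ∑' x, F (x + w) = ∑' x, F x :=
  (Equiv.addRight w).tsum_eq F

theorem s_CAC : S_CAC := by
  intro d B δ f c hf hc hyp
  -- the pointwise inequality
  have hpt : ∀ x, (∑ i : Fin d, (c x ^ 2 * f x * (f x - f (x + ee i)) +
      c x ^ 2 * f x * (f x - f (x - ee i)))) + 2 * B.indicator (fun x => (c x * f x) ^ 2) x ≤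
      δ * (c x * f x) ^ 2 := by
    intro x
    by_cases hx : c x = 0
    · have : B.indicator (fun x => (c x * f x) ^ 2) x = 0 := by
        by_cases hB : x ∈ B
        · rw [Set.indicator_of_mem hB, hx]; ring
        · rw [Set.indicator_of_notMem hB]
      rw [this, hx]
      simp
    · have h1 := mul_le_mul_of_nonneg_left (hyp x hx)
        (mul_nonneg (sq_nonneg (c x)) (hf x))
      have h2 : (∑ i : Fin d, (c x ^ 2 * f x * (f x - f (x + ee i)) +
          c x ^ 2 * f x * (f x - f (x - ee i)))) =
          2 * d * (c x * f x) ^ 2 -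
            c x ^ 2 * f x * ∑ i : Fin d, (f (x + ee i) + f (x - ee i)) := by
        rw [Finset.mul_sum, show 2 * (d : ℝ) * (c x * f x) ^ 2 =
          ∑ i : Fin d, 2 * (c x * f x) ^ 2 by simp; ring, ← Finset.sum_sub_distrib]
        exact Finset.sum_congr rfl fun i _ => by ring
      have h3 : B.indicator (fun x => (c x * f x) ^ 2) x * 2 =
          c x ^ 2 * f x * (B.indicator (fun _ => (2 : ℝ)) x * f x) := by
        by_cases hB : x ∈ B
        · rw [Set.indicator_of_mem hB, Set.indicator_of_mem hB]; ring
        · rw [Set.indicator_of_notMem hB, Set.indicator_of_notMem hB]; ring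
      rw [h2]
      nlinarith [h1, h3]
  -- summability
  have S1 : ∀ i : Fin d, Summable fun x => c x ^ 2 * f x * (f x - f (x + ee i)) := fun i =>
    sm hc fun x h => by rw [h]; ring
  have S2 : ∀ i : Fin d, Summable fun x => c x ^ 2 * f x * (f x - f (x - ee i)) := fun i =>
    sm hc fun x h => by rw [h]; ring
  have S3 : Summable fun x => B.indicator (fun x => (c x * f x) ^ 2) x :=
    sm hc fun x h => by
      by_cases hB : x ∈ B
      · rw [Set.indicator_of_mem hB, h]; ring
      · rw [Set.indicator_of_notMem hB]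
  have S4 : Summable fun x => (c x * f x) ^ 2 := sm hc fun x h => by rw [h]; ring
  have S5 : ∀ i : Fin d, Summable fun x =>
      c (x + ee i) ^ 2 * f (x + ee i) * (f (x + ee i) - f x) := fun i =>
    sm2 hc (ee i) fun x _ h => by rw [h]; ring
  have S6 : ∀ i : Fin d, Summable fun x =>
      (c (x + ee i) * f (x + ee i) - c x * f x) ^ 2 := fun i =>
    sm2 hc (ee i) fun x h h' => by rw [h, h']; ring
  have S7 : ∀ i : Fin d, Summable fun x =>
      (c (x + ee i) - c x) ^ 2 * (f x * f (x + ee i)) := fun i =>
    sm2 hc (ee i) fun x h h' => by rw [h, h']; ring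
  -- the sum over all points
  have hsum := Summable.tsum_le_tsum hpt
    ((summable_sum fun i _ => (S1 i).add (S2 i)).add (S3.mul_left 2)) (S4.mul_left δ)
  rw [Summable.tsum_add (summable_sum fun i _ => (S1 i).add (S2 i)) (S3.mul_left 2),
    Summable.tsum_finsetSum (fun i _ => (S1 i).add (S2 i)), tsum_mul_left, tsum_mul_left] at hsum
  have key : ∀ i : Fin d, ∑' x, (c x ^ 2 * f x * (f x - f (x + ee i)) +
      c x ^ 2 * f x * (f x - f (x - ee i))) =
      ∑' x, (c (x + ee i) * f (x + ee i) - c x * f x) ^ 2 -
        ∑' x, (c (x + ee i) - c x) ^ 2 * (f x * f (x + ee i)) := by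
    intro i
    rw [Summable.tsum_add (S1 i) (S2 i)]
    have e1 : ∑' x, c x ^ 2 * f x * (f x - f (x - ee i)) =
        ∑' x, c (x + ee i) ^ 2 * f (x + ee i) * (f (x + ee i) - f x) := by
      rw [← shift_tsum (fun x => c x ^ 2 * f x * (f x - f (x - ee i))) (ee i)]
      simp only [add_sub_cancel_right]
    rw [e1, ← Summable.tsum_add (S1 i) (S5 i), ← Summable.tsum_sub (S6 i) (S7 i)]
    exact tsum_congr fun x => by ring
  rw [Finset.sum_congr rfl fun i _ => key i, Finset.sum_sub_distrib] at hsum
  show (∑ i : Fin d, ∑' x : V d, (c (x + ee i) * f (x + ee i) - c x * f x) ^ 2) + _ ≤ _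
  linarith

end Pool.Agent.L7h73.AE
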