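import Pool.Agent.L7h73.AE.Cac

/-!
# A Poincaré inequality with many barriers

`s_POI`: if a set contains a quarter of the points of each cube of radius `n` centred in the
support of `g`, then the `ℓ²` norm of `g` is controlled by the part on the set and the energy.
-/

set_option autoImplicit false

namespace Pool.Agent.L7h73.AE

open Pool.Agent.H12R2.And (V ee Q sum_Q_shift card_Q mem_Q)
open Pool.Agent.L7h99.AE

variable {d : ℕ}

/-- the square of the `ℓ²` norm of the difference of `g` and its translate -/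
noncomputable def AA (g : V d → ℝ) (w : V d) : ℝ := ∑' x, (g (x + w) - g x) ^ 2

lemma AA_summable {g : V d → ℝ} (hg : (Function.support g).Finite) (w : V d) :
    Summable fun x => (g (x + w) - g x) ^ 2 :=
  sm2 hg w fun x h h' => by rw [h, h']; ring

lemma AA_nonneg (g : V d → ℝ) (w : V d) : 0 ≤ AA g w := tsum_nonneg fun _ => sq_nonneg _

lemma AA_zero (g : V d → ℝ) : AA g 0 = 0 := by
  unfold AA; simp

lemma AA_neg (g : V d → ℝ) (w : V d) : AA g (-w) = AA g w := by
  unfold AA
  rw [← shift_tsum (fun x => (g (x + -w) - g x) ^ 2) w]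
  refine tsum_congr fun x => ?_
  rw [add_neg_cancel_right]
  ring

lemma AA_add {g : V d → ℝ} (hg : (Function.support g).Finite) (v w : V d) {t : ℝ} (ht : 0 < t) :
    AA g (v + w) ≤ (1 + 1 / t) * AA g v + (1 + t) * AA g w := by
  have e1 : AA g w = ∑' x, (g (x + v + w) - g (x + v)) ^ 2 :=
    (shift_tsum (fun x => (g (x + w) - g x) ^ 2) v).symm
  have S1 : Summable fun x => (g (x + v + w) - g (x + v)) ^ 2 :=
    ((Equiv.addRight v).summable_iff (f := fun x => (g (x + w) - g x) ^ 2)).2
      (AA_summable hg w)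
  rw [e1]
  unfold AA
  rw [← tsum_mul_left, ← tsum_mul_left,
    ← Summable.tsum_add ((AA_summable hg v).mul_left _) (S1.mul_left _)]
  refine Summable.tsum_le_tsum (fun x => ?_) (AA_summable hg (v + w))
    (((AA_summable hg v).mul_left _).add (S1.mul_left _))
  rw [← add_assoc]
  set a := g (x + v) - g x with ha
  set b := g (x + v + w) - g (x + v) with hb
  have : g (x + v + w) - g x = a + b := by rw [ha, hb]; ring
  rw [this]
  have h2 : 0 ≤ (a / t - b) ^ 2 * t := by positivity
  have h3 : (a / t - b) ^ 2 * t = 1 / t * a ^ 2 - 2 * a * b + t * b ^ 2 := by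
    field_simp
    ring
  nlinarith [h2, h3]

lemma AA_nsmul {g : V d → ℝ} (hg : (Function.support g).Finite) (e : V d) (k : ℕ) :
    AA g (k • e) ≤ (k : ℝ) ^ 2 * AA g e := by
  induction k with
  | zero => rw [zero_smul, AA_zero]; simp
  | succ k ih =>
    rcases Nat.eq_zero_or_pos k with h0 | h0
    · subst h0; simp
    · have hk : (0 : ℝ) < k := by exact_mod_cast h0
      rw [succ_nsmul]
      refine (AA_add hg (k • e) e hk).trans ?_
      have h1 : (1 + 1 / (k : ℝ)) * AA g (k • e) ≤
          (1 + 1 / (k : ℝ)) * ((k : ℝ) ^ 2 * AA g e) :=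
        mul_le_mul_of_nonneg_left ih (by positivity)
      have h2 : (1 + 1 / (k : ℝ)) * ((k : ℝ) ^ 2 * AA g e) =
          ((k : ℝ) ^ 2 + k) * AA g e := by field_simp
      push_cast
      nlinarith [h1, h2]

lemma AA_zsmul {g : V d → ℝ} (hg : (Function.support g).Finite) (e : V d) (k : ℤ) :
    AA g (k • e) ≤ (k : ℝ) ^ 2 * AA g e := by
  obtain ⟨m, rfl | rfl⟩ := k.eq_nat_or_neg
  · rw [natCast_zsmul]
    simpa using AA_nsmul hg e m
  · rw [neg_smul, natCast_zsmul, AA_neg]
    simpa using AA_nsmul hg e m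

lemma AA_sum {g : V d → ℝ} (hg : (Function.support g).Finite) (v : Fin d → V d)
    (S : Finset (Fin d)) : AA g (∑ i ∈ S, v i) ≤ (S.card : ℝ) * ∑ i ∈ S, AA g (v i) := by
  classical
  induction S using Finset.induction_on with
  | empty => simp [AA_zero]
  | insert j S hj ih =>
    rw [Finset.sum_insert hj, Finset.sum_insert hj, Finset.card_insert_of_notMem hj]
    rcases S.eq_empty_or_nonempty with h0 | h0
    · subst h0; simp
    · have hs : (0 : ℝ) < S.card := by exact_mod_cast h0.card_pos
      rw [add_comm (v j)]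
      refine (AA_add hg (∑ i ∈ S, v i) (v j) hs).trans ?_
      have h1 : (1 + 1 / (S.card : ℝ)) * AA g (∑ i ∈ S, v i) ≤
          (1 + 1 / (S.card : ℝ)) * ((S.card : ℝ) * ∑ i ∈ S, AA g (v i)) :=
        mul_le_mul_of_nonneg_left ih (by positivity)
      have h2 : (1 + 1 / (S.card : ℝ)) * ((S.card : ℝ) * ∑ i ∈ S, AA g (v i)) =
          ((S.card : ℝ) + 1) * ∑ i ∈ S, AA g (v i) := by field_simp
      push_cast
      nlinarith [h1, h2]

lemma AA_le {g : V d → ℝ} (hg : (Function.support g).Finite) {n : ℕ} {w : V d}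
    (hw : w ∈ Q (0 : V d) n) : AA g w ≤ d * n ^ 2 * En g := by
  have e1 : w = ∑ i : Fin d, (w i) • (ee i : V d) := by
    funext j
    rw [Finset.sum_apply]
    simp [Pi.single_apply]
  have h1 := AA_sum hg (fun i => (w i) • (ee i : V d)) Finset.univ
  rw [← e1, Finset.card_univ, Fintype.card_fin] at h1
  refine h1.trans ?_
  have h2 : ∑ i : Fin d, AA g ((w i) • (ee i : V d)) ≤ ∑ i : Fin d, (n : ℝ) ^ 2 * AA g (ee i) := by
    refine Finset.sum_le_sum fun i _ => (AA_zsmul hg _ _).trans ?_
    refine mul_le_mul_of_nonneg_right ?_ (AA_nonneg _ _)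
    have h3 := mem_Q.1 hw i
    simp only [Pi.zero_apply, sub_zero] at h3
    have h4 : |((w i : ℤ) : ℝ)| ≤ (n : ℝ) := by exact_mod_cast h3
    exact sq_le_sq' (by linarith [(abs_le.1 h4).1]) (abs_le.1 h4).2
  rw [← Finset.mul_sum] at h2
  have h5 : En g = ∑ i : Fin d, AA g (ee i) := rfl
  rw [h5, mul_assoc]
  exact mul_le_mul_of_nonneg_left h2 (Nat.cast_nonneg d)

theorem s_POI : S_POI := by
  intro d B n g hg hyp
  set N : ℝ := ((Q (0 : V d) n).card : ℝ) with hN
  have hNpos : 0 < N := by
    rw [hN, card_Q]; positivity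
  set G : V d → ℝ := fun x => B.indicator (fun x => g x ^ 2) x with hG
  have S1 : Summable fun x => g x ^ 2 := sm hg fun x h => by rw [h]; ring
  have SG : Summable G := sm hg fun x h => by
    by_cases hB : x ∈ B
    · simp only [hG, Set.indicator_of_mem hB, h]; ring
    · simp only [hG, Set.indicator_of_notMem hB]
  have SGw : ∀ w : V d, Summable fun x => G (x + w) := fun w =>
    ((Equiv.addRight w).summable_iff (f := G)).2 SG
  -- pointwise
  have hpt : ∀ x, N * g x ^ 2 ≤
      ∑ w ∈ Q (0 : V d) n, (8 * G (x + w) + 8 * (g (x + w) - g x) ^ 2) := by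
    intro x
    by_cases hx : g x = 0
    · rw [hx]
      have : N * (0 : ℝ) ^ 2 = 0 := by ring
      rw [this]
      refine Finset.sum_nonneg fun w _ => ?_
      have : 0 ≤ G (x + w) := Set.indicator_nonneg (fun _ _ => sq_nonneg _) _
      positivity
    · have h1 := hyp x hx
      rw [sum_Q_shift x n, card_Q, ← card_Q (0 : V d) n] at h1
      have h2 := mul_le_mul_of_nonneg_right h1 (sq_nonneg (g x))
      refine h2.trans ?_
      rw [Finset.mul_sum, Finset.sum_mul]
      refine Finset.sum_le_sum fun w _ => ?_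
      rw [add_comm w x]
      by_cases hB : x + w ∈ B
      · simp only [hG, Set.indicator_of_mem hB]
        nlinarith [sq_nonneg (g (x + w) + (g (x + w) - g x))]
      · simp only [hG, Set.indicator_of_notMem hB]
        nlinarith [sq_nonneg (g (x + w) - g x)]
  have S2 : ∀ w : V d, Summable fun x => 8 * G (x + w) + 8 * (g (x + w) - g x) ^ 2 := fun w =>
    ((SGw w).mul_left 8).add ((AA_summable hg w).mul_left 8)
  have hsum := Summable.tsum_le_tsum hpt (S1.mul_left N) (summable_sum fun w _ => S2 w)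
  rw [tsum_mul_left, Summable.tsum_finsetSum (fun w _ => S2 w)] at hsum
  have hw : ∀ w ∈ Q (0 : V d) n, ∑' x, (8 * G (x + w) + 8 * (g (x + w) - g x) ^ 2) ≤
      8 * ∑' x, G x + 8 * d * n ^ 2 * En g := by
    intro w hw
    rw [Summable.tsum_add ((SGw w).mul_left 8) ((AA_summable hg w).mul_left 8), tsum_mul_left,
      tsum_mul_left, shift_tsum G w]
    have := AA_le hg hw
    unfold AA at this
    linarith
  have h3 := hsum.trans (Finset.sum_le_sum hw)
  rw [Finset.sum_const, nsmul_eq_mul] at h3
  exact le_of_mul_le_mul_left h3 hNpos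

end Pool.Agent.L7h73.AE
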